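import Pool.Agent.helper34.AC.Spec4

set_option autoImplicit false

open Filter Topology

namespace Pool.Agent.helper34.AC

theorem CST_gb_one (hD23 : D23_stmt) (n : ℕ) : 1 ≤ gb n := by
  have h0 : gb 0 = 1 := by
    simp [gb, bl]
  have := hD23.2.2.2 0 n (Nat.zero_le n)
  linarith

theorem CST_mono (hASY : ASY_stmt) (hD23 : D23_stmt) : ∃ M : ℕ, ∀ m : ℕ, M ≤ m → ∀ n : ℕ, m ≤ n →
    0 < xx m ∧ xx n / gb n ≤ xx m / gb m := by
  obtain ⟨M, hM⟩ := hASY 1 one_pos
  refine ⟨M, fun m hm n hn => ⟨(hM m hm).2.2.2.2.2.2.2, ?_⟩⟩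
  induction n, hn using Nat.le_induction with
  | base => exact le_rfl
  | succ n hn ih =>
    refine le_trans ?_ ih
    have h1 := (hM n (le_trans hm hn)).2.2.1
    have h2 := (hM n (le_trans hm hn)).2.2.2.2.2.2.2
    have h3 := CST_gb_one hD23 n
    have h4 := hD23.2.2.2 n (n + 1) (Nat.le_succ n)
    exact div_le_div₀ h2.le h1 (by linarith) h4

theorem CST_err (hASY : ASY_stmt) (hD23 : D23_stmt) (hOMF : OMF_stmt) (C e K : ℝ) (hC : 0 < C) (he : 0 < e) :
    ∃ M : ℕ, ∀ m : ℕ, M ≤ m →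
    C * (1 + om m) ^ 3 / gb m ^ 2 + 512 / gb m ^ 3 ≤ e * (xx (m + 1) / gb (m + 1)) ∧ K ≤ gb m := by
  have hE : 0 < e / (4 * C + 2048) := by positivity
  obtain ⟨M1, hM1⟩ := hASY _ hE
  obtain ⟨M2, hM2⟩ := hASY (1 / 2) (by norm_num)
  obtain ⟨M3, hM3⟩ := (tendsto_atTop.1 hOMF.2.2.2.1 K).exists_forall_of_atTop
  refine ⟨M1 + M2 + M3, fun m hm => ⟨?_, hM3 m (by omega)⟩⟩
  have hg := CST_gb_one hD23 m
  have hg1 := CST_gb_one hD23 (m + 1)
  have hw := (hOMF.1 m).1
  have hx := hD23.1 m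
  have hA : (1 + om m) ^ 8 ≤ e / (4 * C + 2048) * gb m := (hM1 m (by omega)).2.2.2.1
  have hB := (hM2 (m + 1) (by omega)).1
  have hom : om (m + 1) ≤ 1 + om m := by
    have h1 := (hOMF.1 m).2.2
    have h2 : (1 - om m * xx (m + 1)) / gb (m + 1) ≤ 1 := by
      rw [div_le_one (by linarith)]
      have := mul_nonneg hw hx.1.le
      linarith
    linarith
  have hgg : gb (m + 1) ≤ 2 * gb m := by
    have h1 : gb (m + 1) = gb m + xx (m + 1) := by simp [xx]
    linarith
  have hxx : 1 / (2 * (1 + om m)) ≤ xx (m + 1) := by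
    rw [div_le_iff₀ (by linarith)]
    have h1 := (abs_le.1 hB).1
    nlinarith [mul_le_mul_of_nonneg_left hom hx.1.le]
  have hgam : 1 / (4 * (1 + om m) * gb m) ≤ xx (m + 1) / gb (m + 1) := by
    have h1 : 1 / (4 * (1 + om m) * gb m) = 1 / (2 * (1 + om m)) / (2 * gb m) := by
      field_simp
      ring
    rw [h1]
    exact div_le_div₀ hx.1.le hxx (by linarith) hgg
  refine le_trans ?_ (mul_le_mul_of_nonneg_left hgam he.le)
  have hp : (1 + om m) ^ 4 ≤ (1 + om m) ^ 8 := pow_le_pow_right₀ (by linarith) (by norm_num)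
  have hp1 : (1 + om m) ≤ (1 + om m) ^ 8 := by
    calc (1 + om m) = (1 + om m) ^ 1 := (pow_one _).symm
      _ ≤ (1 + om m) ^ 8 := pow_le_pow_right₀ (by linarith) (by norm_num)
  have hgp : 0 < gb m := by linarith
  have hwp : 0 < 1 + om m := by linarith
  have key : (C * (1 + om m) ^ 3 / gb m ^ 2 + 512 / gb m ^ 3) * (4 * (1 + om m) * gb m) ≤ e := by
    have e1 : (C * (1 + om m) ^ 3 / gb m ^ 2 + 512 / gb m ^ 3) * (4 * (1 + om m) * gb m) =
        4 * C * ((1 + om m) ^ 4 / gb m) + 2048 * ((1 + om m) / gb m / gb m) := by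
      field_simp
      ring
    rw [e1]
    have e2 : (1 + om m) ^ 4 / gb m ≤ e / (4 * C + 2048) := by
      rw [div_le_iff₀ hgp]; linarith
    have e3 : (1 + om m) / gb m / gb m ≤ e / (4 * C + 2048) := by
      have e4 : (1 + om m) / gb m ≤ e / (4 * C + 2048) := by
        rw [div_le_iff₀ hgp]; linarith
      refine le_trans (div_le_self (by positivity) hg) e4
    calc 4 * C * ((1 + om m) ^ 4 / gb m) + 2048 * ((1 + om m) / gb m / gb m)
        ≤ 4 * C * (e / (4 * C + 2048)) + 2048 * (e / (4 * C + 2048)) := by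
          gcongr
      _ = e := by field_simp
  rw [mul_one_div, le_div_iff₀ (by positivity)]
  exact key

theorem CST_N_nonneg {V : Type} (G : SimpleGraph V) (U : Finset V) : 0 ≤ N G U := Nat.cast_nonneg _

theorem CST_scard {V : Type} [DecidableEq V] (G : SimpleGraph V) (U : Finset V) (v : V) (m : ℕ) (hU : U.card = m + 1)
    (hv : v ∈ U) (S : Finset V) (hS : S ∈ st G {v} (U.erase v)) :
    S.card ≤ m ∧ (U.erase v \ S).card = m - S.card ∧ S ⊆ U.erase v := by
  have h1 : S ⊆ U.erase v := by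
    classical
    exact Finset.mem_powerset.1 (Finset.mem_filter.1 hS).1
  have h2 : (U.erase v).card = m := by rw [Finset.card_erase_of_mem hv, hU]; rfl
  have h3 := Finset.card_le_card h1
  have h4 := Finset.card_sdiff_of_subset h1
  exact ⟨by omega, by omega, h1⟩

open Classical in
/-- The summation step. -/
theorem CST_sum (hRCN : RCN_stmt) {V : Type} [DecidableEq V] (G : SimpleGraph V) (U A : Finset V) (v : V) (m : ℕ)
    (hv : v ∈ U) (c : ℝ)
    (h : ∀ S ∈ st G {v} (U.erase v), gb (m - S.card) * N G (U.erase v \ S) + c * N G (U.erase v \ S)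
      - c * (if (¬ Disjoint S A ∨ m < 2 * S.card) then N G (U.erase v \ S) else 0)
      - (if m < 2 * S.card then N G (U.erase v \ S) else 0) ≤ N1 G (U.erase v \ S)) :
    N G U + ∑ S ∈ st G {v} (U.erase v), gb (m - S.card) * N G (U.erase v \ S) + c * N G U
      - c * ∑ S ∈ (st G {v} (U.erase v)).filter (fun S => ¬ Disjoint S A ∨ m < 2 * S.card), N G (U.erase v \ S)
      - ∑ S ∈ (st G {v} (U.erase v)).filter (fun S => m < 2 * S.card), N G (U.erase v \ S) ≤ N1 G U := by
  obtain ⟨h1, -, h2⟩ := hRCN V G U v hv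
  have h3 : N G U = ∑ S ∈ st G {v} (U.erase v), N G (U.erase v \ S) := by
    rw [h1]
    unfold Mk
    refine Finset.sum_congr rfl fun S _ => ?_
    simp
  have h4 := Finset.sum_le_sum h
  rw [Finset.sum_sub_distrib, Finset.sum_sub_distrib, Finset.sum_add_distrib, ← Finset.mul_sum, ← Finset.mul_sum,
    ← h3, ← Finset.sum_filter, ← Finset.sum_filter] at h4
  linarith

theorem CST_dg {V : Type} [DecidableEq V] (G : SimpleGraph V) (U : Finset V) (v : V) (d : ℕ) (hd : d ≤ dg G U v) :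
    ∃ Y : Finset V, Y ⊆ U ∧ Y.card = d ∧ ∀ y ∈ Y, G.Adj v y := by
  classical
  unfold dg at hd
  obtain ⟨Y, hY, hYc⟩ := Finset.exists_subset_card_eq hd
  refine ⟨Y, hY.trans (Finset.filter_subset _ _), hYc, fun y hy => ?_⟩
  exact (Finset.mem_filter.1 (hY hy)).2

theorem CST (hT2S : T2S_stmt) (hOMS : OMS_stmt) (hSTR : STR_stmt) (hTAI : TAI_stmt) (hZST : ZST_stmt) (hDYL : DYL_stmt)
    (hGDP : GDP_stmt) (hEPC : EPC_stmt) (hRCN : RCN_stmt) (hMAIN : MAIN_stmt) (hGAP : GAP_stmt) (hASY : ASY_stmt)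
    (hOMF : OMF_stmt) (hD23 : D23_stmt) : CST_stmt := by
  intro k
  induction k using Nat.strong_induction_on with
  | _ k ih =>
  intro e he
  obtain ⟨n0, hn0⟩ := hT2S
  rcases Nat.eq_zero_or_pos k with hk | hk
  · subst hk
    refine ⟨n0, fun V _ G U hU _ => ?_⟩
    have := hn0 V G U hU
    simpa using this
  obtain ⟨e', he'0, he'1, he'2⟩ : ∃ e' : ℝ, 0 < e' ∧ e' ≤ 1 / 4 ∧ 4 * e' ≤ e := by
    refine ⟨min e 1 / 4, by positivity, ?_, ?_⟩
    · have := min_le_right e 1
      linarith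
    · have := min_le_left e 1
      linarith
  obtain ⟨o, ho1, ho2, ⟨Mo, ho3⟩, ho4⟩ := hOMS
  obtain ⟨C1, hC1, MS, hMS⟩ := hSTR
  obtain ⟨MT, hMT⟩ := hTAI
  obtain ⟨C2, hC2, MZ, hMZ⟩ := hZST
  have hD : ∀ d : ℕ, ∃ M : ℕ, ∀ m : ℕ, M ≤ m → ∀ (V : Type) [DecidableEq V]
      (G : SimpleGraph V) (U Y : Finset V) (v : V), U.card = m + 1 → v ∈ U → Y ⊆ U → Y.card = d →
      (∀ y ∈ Y, G.Adj v y) → (∀ u ∈ U, (om m - 1) * N G U ≤ Mk G {u} (U.erase u) 1) →
      Mk G {v} (U.erase v) 1 ≤ (om m - (1 - e') * d / gb m) * N G U := fun d => hDYL d e' he'0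
  choose MD hMD using hD
  obtain ⟨MG, hMG⟩ := hGDP (2 * k) e' he'0
  have hI : ∀ j : ℕ, ∃ M : ℕ, j < k → ∀ (V : Type) [DecidableEq V] (G : SimpleGraph V)
      (U : Finset V), M ≤ U.card → 2 * j ≤ ep G U →
      (gb U.card + (j : ℝ) * (1 - e') * (xx U.card / gb U.card)) * N G U ≤ N1 G U := by
    intro j
    by_cases hj : j < k
    · obtain ⟨M, hM⟩ := ih j hj e' he'0
      exact ⟨M, fun _ => hM⟩
    · exact ⟨0, fun h => absurd h hj⟩
  choose MI hMI using hI
  obtain ⟨Mm, hMm⟩ := CST_mono hASY hD23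
  obtain ⟨ME, hME⟩ := CST_err hASY hD23 hOMF (max C1 C2) e' ((k : ℝ) + 1) (lt_max_of_lt_left hC1) he'0
  set B1 := (Finset.range (k + 1)).sup MD with hB1
  set B2 := (Finset.range (k + 1)).sup MI with hB2
  have hB1' : ∀ d, d ≤ k → MD d ≤ B1 := fun d hd => Finset.le_sup (f := MD) (by simp; omega)
  have hB2' : ∀ d, d ≤ k → MI d ≤ B2 := fun d hd => Finset.le_sup (f := MI) (by simp; omega)
  refine ⟨2 * n0 + Mo + MS + MT + MZ + MG + B1 + 2 * B2 + 2 * Mm + ME + 2, fun V _ G U hU hep => ?_⟩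
  obtain ⟨m, hm⟩ : ∃ m, U.card = m + 1 := ⟨U.card - 1, by omega⟩
  rw [hm] at hU ⊢
  have hN := CST_N_nonneg G U
  have hg := CST_gb_one hD23 m
  have hg1 := CST_gb_one hD23 (m + 1)
  obtain ⟨hxm, hgm⟩ := hMm m (by omega) (m + 1) (by omega)
  have hx1 : 0 < xx (m + 1) := (hMm (m + 1) (by omega) (m + 1) le_rfl).1
  obtain ⟨hE, hK⟩ := hME m (by omega)
  have hw := (hOMF.1 m).1
  have hgam0 : 0 < xx (m + 1) / gb (m + 1) := div_pos hx1 (by linarith)
  set γ := xx (m + 1) / gb (m + 1) with hγ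
  have hkR : (1 : ℝ) ≤ (k : ℝ) := by exact_mod_cast hk
  have hEr1 : C1 * (1 + om m) ^ 3 / gb m ^ 2 ≤ max C1 C2 * (1 + om m) ^ 3 / gb m ^ 2 := by
    gcongr
    exact le_max_left _ _
  have hEr2 : C2 * (1 + om m) ^ 3 / gb m ^ 2 ≤ max C1 C2 * (1 + om m) ^ 3 / gb m ^ 2 := by
    gcongr
    exact le_max_right _ _
  have h512 : 0 < 512 / gb m ^ 3 := by positivity
  by_contra hcon
  push Not at hcon
  have hcon2 : N1 G U ≤ (gb (m + 1) + (k : ℝ) * γ) * N G U := by
    refine hcon.le.trans (mul_le_mul_of_nonneg_right ?_ hN)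
    have : (k : ℝ) * (1 - e) * γ ≤ (k : ℝ) * γ := by
      have h1 : 0 ≤ (k : ℝ) * γ := by positivity
      have h2 := mul_nonneg h1 he.le
      have h3 : (k : ℝ) * (1 - e) * γ = (k : ℝ) * γ - (k : ℝ) * γ * e := by ring
      linarith
    linarith
  -- step 1
  have hstep1 : ∀ u ∈ U, (om m - 1) * N G U ≤ Mk G {u} (U.erase u) 1 := by
    intro u hu
    have h1 := (hMZ m (by omega) V G U u hm hu).trans hcon2
    have h2 : (k : ℝ) * γ + C2 * (1 + om m) ^ 3 / gb m ^ 2 ≤ xx m := by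
      have h3 : C2 * (1 + om m) ^ 3 / gb m ^ 2 ≤ 1 * γ := by
        have h4 : e' * γ ≤ 1 * γ := by
          apply mul_le_mul_of_nonneg_right _ hgam0.le
          linarith
        linarith
      have h5 : ((k : ℝ) + 1) * γ ≤ xx m := by
        calc ((k : ℝ) + 1) * γ ≤ ((k : ℝ) + 1) * (xx m / gb m) := by gcongr
          _ ≤ gb m * (xx m / gb m) := by
              apply mul_le_mul_of_nonneg_right hK
              positivity
          _ = xx m := by field_simp
      linarith
    have h6 : xx m * ((om m - 1) * N G U) ≤ xx m * Mk G {u} (U.erase u) 1 := by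
      have h7 := mul_le_mul_of_nonneg_right h2 hN
      linarith
    exact le_of_mul_le_mul_left h6 hxm
  -- step 2
  obtain ⟨-, hep2, hep3, hep4, -⟩ := hEPC V G U
  obtain ⟨v, hv, hdv⟩ := hep4 (by omega)
  set d := min (dg G U v) k with hd
  have hd1 : 1 ≤ d := le_min hdv hk
  have hdk : d ≤ k := min_le_right _ _
  obtain ⟨Y, hYU, hYc, hYa⟩ := CST_dg G U v d (min_le_left _ _)
  have hdyl := hMD d m (by have := hB1' d hdk; omega) V G U Y v hm hv hYU hYc hYa hstep1
  -- step 3
  obtain ⟨A, hAU, hAc, hAe⟩ : ∃ A : Finset V, A ⊆ U.erase v ∧ A.card ≤ 2 * (k - d) ∧ 2 * (k - d) ≤ ep G A := by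
    refine (hEPC V G (U.erase v)).2.2.2.2 (k - d) ?_
    have h1 := hep2 v hv
    rcases min_choice (dg G U v) k with h2 | h2
    · rw [← hd] at h2
      omega
    · rw [← hd] at h2
      omega
  -- step 4
  have hOm : Om G (U.erase v) o := fun R _ => ho4 V G R
  have hom : o m ≤ om m + 1 / gb m := by
    rw [ho3 m (by omega)]
    have : 0 < 1 / gb m := by positivity
    linarith
  have hstr := hMS m (by omega) V G U v o hm hv ho1 hOm hom
  have htai := hMT m (by omega) V G U v o hm hv ho1 hOm hom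
  have hgdp := hMG m (by omega) V G U A v hm hv hAU (by omega) hstep1
  have hc0 : 0 ≤ ((k - d : ℕ) : ℝ) * (1 - e') * γ := by
    have : 0 ≤ 1 - e' := by linarith
    positivity
  have hsum := CST_sum hRCN G U A v m hv (((k - d : ℕ) : ℝ) * (1 - e') * γ) ?_
  · -- conclusion
    set s1 := ∑ S ∈ st G {v} (U.erase v), gb (m - S.card) * N G (U.erase v \ S)
    have hg2 := mul_le_mul_of_nonneg_left hgdp hc0
    have hdx := mul_le_mul_of_nonneg_left hdyl hxm.le
    have hkd : ((k - d : ℕ) : ℝ) = (k : ℝ) - (d : ℝ) := by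
      rw [Nat.cast_sub hdk]
    have hfin : (gb (m + 1) + (k : ℝ) * (1 - e) * γ) * N G U ≤ N1 G U := by
      have key : (gb (m + 1) + (k : ℝ) * (1 - e) * γ) ≤
          1 + (gb (m + 1) - 1 + xx m * om m - C1 * (1 + om m) ^ 3 / gb m ^ 2)
            - xx m * (om m - (1 - e') * d / gb m) + ((k - d : ℕ) : ℝ) * (1 - e') * γ
            - ((k - d : ℕ) : ℝ) * (1 - e') * γ * e' - 512 / gb m ^ 3 := by
        have a1 : (d : ℝ) * (1 - e') * γ ≤ xx m * ((1 - e') * d / gb m) := by
          have a2 : xx m * ((1 - e') * d / gb m) = (d : ℝ) * (1 - e') * (xx m / gb m) := by ring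
          rw [a2]
          apply mul_le_mul_of_nonneg_left hgm
          have : 0 ≤ 1 - e' := by linarith
          positivity
        have a3 : (d : ℝ) * (1 - e') ^ 2 * γ ≤ (d : ℝ) * (1 - e') * γ := by
          have a4 : 0 ≤ (d : ℝ) * (1 - e') * γ := by
            have : 0 ≤ 1 - e' := by linarith
            positivity
          have a5 := mul_nonneg a4 he'0.le
          have a6 : (d : ℝ) * (1 - e') ^ 2 * γ = (d : ℝ) * (1 - e') * γ - (d : ℝ) * (1 - e') * γ * e' := by ring
          linarith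
        have a5 : (k : ℝ) * (1 - e) * γ ≤ (k : ℝ) * (1 - e') ^ 2 * γ - e' * γ := by
          have a6 : (k : ℝ) * (1 - e) ≤ (k : ℝ) * (1 - e') ^ 2 - e' := by
            have a7 : e' ≤ (k : ℝ) * e' := le_mul_of_one_le_left he'0.le hkR
            have a8 : (k : ℝ) * (1 - e) ≤ (k : ℝ) * ((1 - e') ^ 2 - e') := by
              apply mul_le_mul_of_nonneg_left _ (by linarith)
              have a9 : (1 - e') ^ 2 = 1 - 2 * e' + e' ^ 2 := by ring
              have a10 := sq_nonneg e'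
              linarith
            linarith
          have := mul_le_mul_of_nonneg_right a6 hgam0.le
          linarith
        rw [hkd]
        have a9 : (k : ℝ) * (1 - e') ^ 2 * γ = (d : ℝ) * (1 - e') ^ 2 * γ + ((k : ℝ) - d) * (1 - e') ^ 2 * γ := by
          ring
        have a10 : ((k : ℝ) - d) * (1 - e') ^ 2 * γ = ((k : ℝ) - d) * (1 - e') * γ - ((k : ℝ) - d) * (1 - e') * γ * e' := by
          ring
        linarith
      have key2 := mul_le_mul_of_nonneg_right key hN
      linarith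
    linarith
  · -- the bound for each S
    intro S hS
    obtain ⟨hS1, hS2, hS3⟩ := CST_scard G U v m hm hv S hS
    have hNS := CST_N_nonneg G (U.erase v \ S)
    have hcN : 0 ≤ ((k - d : ℕ) : ℝ) * (1 - e') * γ * N G (U.erase v \ S) := mul_nonneg hc0 hNS
    by_cases hlarge : m < 2 * S.card
    · have hbad : (¬ Disjoint S A ∨ m < 2 * S.card) := Or.inr hlarge
      rw [if_pos hbad, if_pos hlarge]
      have h1 := hMAIN V G (U.erase v \ S)
      have h2 := (hGAP.1 (U.erase v \ S).card).1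
      rw [hS2] at h1 h2
      have h3 := mul_le_mul_of_nonneg_right h2 hNS
      linarith
    · rw [if_neg hlarge]
      by_cases hdis : Disjoint S A
      · have hgood : ¬ (¬ Disjoint S A ∨ m < 2 * S.card) := by
          push Not
          exact ⟨hdis, by omega⟩
        rw [if_neg hgood]
        have h1 := hMI (k - d) (by omega) V G (U.erase v \ S)
          (by have := hB2' (k - d) (by omega); omega) (le_trans hAe ((hEPC V G (U.erase v \ S)).2.2.1 A ?_))
        · rw [hS2] at h1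
          have h2 := (hMm (m - S.card) (by omega) (m + 1) (by omega)).2
          have h3 : ((k - d : ℕ) : ℝ) * (1 - e') * γ ≤
              ((k - d : ℕ) : ℝ) * (1 - e') * (xx (m - S.card) / gb (m - S.card)) := by
            apply mul_le_mul_of_nonneg_left h2
            have : 0 ≤ 1 - e' := by linarith
            positivity
          have h4 := mul_le_mul_of_nonneg_right h3 hNS
          linarith
        · intro a ha
          rw [Finset.mem_sdiff]
          exact ⟨hAU ha, fun haS => (Finset.disjoint_left.1 hdis) haS ha⟩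
      · have hbad : (¬ Disjoint S A ∨ m < 2 * S.card) := Or.inl hdis
        rw [if_pos hbad]
        have h1 := hn0 V G (U.erase v \ S) (by omega)
        rw [hS2] at h1
        linarith

end Pool.Agent.helper34.AC
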